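import Mathlib
import Pool.Agent.Lib_MP_7488b5_nt.Main

set_option autoImplicit false

namespace Pool.Agent.Results.MP_7488b5_nt.UniformStarExponent

open Pool.Agent.Lib_MP_7488b5_nt

/-- For every finite field `F = F_q` and every `n ≥ 2` there is an algebraic
`ξ ∈ F_q((T⁻¹))` of degree larger than `n` with `ŵ_n^*(ξ) < n`. -/
theorem result : ∀ (F : Type) [Field F] [Fintype F] (n : ℕ), 2 ≤ n →
    ∃ ξ : LaurentSeries F, (∃ P, IsMinDefPoly P ξ) ∧ (∀ P, IsMinDefPoly P ξ → n < P.natDegree) ∧
      wHatStar n ξ < (n : EReal) := by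
  intro F _ _ n hn
  exact main F n hn

end Pool.Agent.Results.MP_7488b5_nt.UniformStarExponent
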